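import Pool.Agent.Y276.Lf.Fin

/-!
Problem MP_777e28_an, Q1: full positive answer with uniform constants, as a special case of a theorem
on general metric spaces.

For `0 < p ≤ 1` the Lipschitz free `p`-space `F_p(M)` is isomorphic to `ℓ_p(F_p(M))` for every metric
space `M` whose balls have `L`-Lipschitz complemented copies arbitrarily far away (`FarCopies`), and
the Banach-Mazur distance is bounded by a constant which depends only on `p` and `L`. This applies to
every metric space whose isometry group has an unbounded orbit (`L = 1`; for example infinite groups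
with proper left invariant metrics), to all nets in all metric spaces which have similarities and
unboundedly many isometries (homogeneous groups, `p`-normed spaces, snowflakes), and to all nets in
all normed spaces.

The definitions are in `Pool.Agent.H621R3.LFDefs` (`PBanach`, `IsLipFree`, `EllP`; norms are
`p`-th powers of the `p`-norms), `Pool.Agent.Y276.Lf.Far` (`FarCopies`) and
`Pool.Agent.Y276.Lf.Fin` (`LpIso`, `IsNetAB`).
-/

set_option autoImplicit false

namespace Pool.Agent.Results.MP_777e28_an.UnboundedOrbits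

open Pool.Agent.H621R3.LF Pool.Agent.Y276.Lf

universe u

theorem result (p : ℝ) (hp : 0 < p) (hp1 : p ≤ 1) :
    -- Lipschitz free `p`-spaces exist
    (∀ (M : Type u) [MetricSpace M] (x0 : M),
      ∃ (F : Type u) (_ : NormedAddCommGroup F) (_ : Module ℝ F) (_ : PBanach p F) (δ : M → F),
        IsLipFree p x0 δ) ∧
    -- metric spaces with complemented copies of their balls far away
    (∀ (M : Type u) [MetricSpace M] (x0 : M) (L : ℝ), FarCopies x0 L →
      LpIso p x0 (10 ^ 4 * L ^ (3 * p))) ∧
    -- metric spaces with an unbounded orbit of isometries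
    (∀ (M : Type u) [MetricSpace M] (x0 : M), (∀ r : ℝ, ∃ g : M ≃ᵢ M, r ≤ dist (g x0) x0) →
      LpIso p x0 (10 ^ 4)) ∧
    -- nets in metric spaces with similarities and unbounded orbits
    (∀ (X : Type u) [MetricSpace X] (lam : ℝ) (S : X ≃ X), 1 < lam →
      (∀ x y, dist (S x) (S y) = lam * dist x y) →
      (∀ (x : X) (r : ℝ), ∃ g : X ≃ᵢ X, r ≤ dist (g x) x) →
      ∀ (N : Set X) (a b : ℝ), IsNetAB N a b → ∀ x0 : N,
        LpIso p x0 (10 ^ 4 * (2 * (lam + 1) * (b / a)) ^ (3 * p))) ∧
    -- nets in normed spaces
    (∀ (X : Type u) [NormedAddCommGroup X] [NormedSpace ℝ X] (N : Set X) (a b : ℝ),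
      IsNetAB N a b → ∀ x0 : N, LpIso p x0 (10 ^ 4 * (6 * (b / a)) ^ (3 * p))) :=
  ⟨fun _ _ x0 => exists_lipFree hp hp1 x0,
    fun _ _ x0 _ h => lp_far hp hp1 x0 h,
    fun _ _ x0 h => lp_isometry hp hp1 x0 h,
    fun _ _ _ S hlam hS hG _ _ _ hN x0 => lp_sim hp hp1 hlam S hS hG hN x0,
    fun _ _ _ _ _ _ hN x0 => lp_normed hp hp1 hN x0⟩

end Pool.Agent.Results.MP_777e28_an.UnboundedOrbits
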